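import Mathlib
import Pool.Agent.Run7.h988.DR.Fin

/-!
# Deligne's conjecture for the Artin twists which become abelian over a Galois extension `F'` of `ℚ`

Let `M` be a motive over `ℚ` with coefficients in the field `E` (`E = ℚ` on the page of the problem), of odd
weight for simplicity, and let `K/ℚ` be a Galois extension with group `G`. For an embedding `τ` of `E` and an
irreducible complex character `χ` of `G` let `L τ χ` be the L-function of `τM ⊗ χ` and `P τ χ` the period
of this twist at the critical integer `c` (the same integers are critical for all twists, whose periods are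
multiplicative). Deligne's conjecture at `c` for `M ⊗ ρ`, `ρ` an Artin representation of `G` over `E`, says
that there is ONE element `e` of `E` such that at every embedding of `E` the value of the L-function is the
conjugate of `e` times the period (`Holds`); in particular the value vanishes at all embeddings or at none.

Let `F'/ℚ` be a Galois extension inside `K`, `N = Gal(K/F')`. We suppose only that the conjecture is known,
with coefficients in an extension `E'` of `E` by roots of unity, for the motives `M ⊗ Ind ψ`, `ψ` a Hecke
character of finite order of a field `F''` with `ℚ ⊆ F'' ⊆ F'` (`Ind U ψ`, `U = Gal(K/F'') ⊇ N`). For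
totally real `F'` and `M` the motive of an elliptic curve or of a newform this is a theorem of Shimura
(when the base change is known), while for subfields of `K` which are not contained in `F'` nothing is
known; so the reductions to ALL monomial twists of `G`, such as those in `MP_cd171c_nt.SmallOrders` and
`MP_100fe7_nt.GrowthOfOrders`, do not apply.

**Theorem.** Let `ρ` be an Artin representation of `G` over `E` which becomes abelian over `F'`, that is, it
is trivial on `[N, N]`. Suppose that for each character `λ` of `N` which occurs in `ρ` (a Hecke character of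
`F'`), with stabilizer `S` in `G`, one of the following holds.

1. `S/N` is nilpotent.
2. At ONE embedding, the order of vanishing of the L-function of `M` over `F'` twisted by `λ` is at most one.
3. `S` is solvable and, at ONE embedding, this order is smaller than every prime divisor of `|S|`.

Then Deligne's conjecture holds for `M ⊗ ρ`, with coefficients in `E`.

By Clifford's theorem the `λ`-part of `ρ` is induced from `S`, where it is a sum of representations which
are multiples of `λ` on `N`; these are not monomial in general (for instance if `S/N` is not solvable).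
Brauer's theorem writes them as differences of monomial representations, which gives nothing for vanishing
values. The proof transfers the family of L-functions from `G` to `S` along the map which sends a virtual
character of `S` to the function induced from its `λ`-part: a monomial character of `S` goes to zero or to
a monomial character of `G` from a subgroup `U ⊇ N`, and the regular character goes to `Ind_N λ`, so that
the total order of the transferred family is the order over `F'` twisted by `λ`. To this family on `S` the
library theorems of `Pool/Agent/R389` apply. The files new here are `Pool/Agent/Run7/h988/DR`.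
-/

set_option autoImplicit false

open Filter Topology Pool.Agent.H541R3.ART

namespace Pool.Agent.Results.MP_b696eb_nt.AbelianOverNormal

/-- The L-functions `L τ χ` of the twists `τM ⊗ χ` of a motive `M` with coefficients in `E` by the
irreducible complex characters `χ` of the group `G`, meromorphic and not identically zero near `c`, and
the periods `P τ χ ≠ 0` of these twists; `τ` runs through the embeddings of `E`. -/
structure Twists (E G : Type) [Field E] [Group G] (c : ℂ) where
  /-- the L-functions -/
  L : (E →+* ℂ) → (G → ℂ) → ℂ → ℂ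
  /-- the periods -/
  P : (E →+* ℂ) → (G → ℂ) → ℂ
  /-- the L-functions are meromorphic and not identically zero near `c` -/
  mero : ∀ τ, ∀ χ ∈ Irr G, MeromorphicAt (L τ χ) c ∧ meromorphicOrderAt (L τ χ) c ≠ ⊤
  /-- the periods are not zero -/
  ne : ∀ τ, ∀ χ ∈ Irr G, P τ χ ≠ 0

/-- `f` is the sum of `m χ` copies of `χ` over the irreducible complex characters `χ` of `G` -/
def IsSum {G : Type} [Group G] (f : G → ℂ) (m : (G → ℂ) → ℕ) : Prop :=
  ∀ g, f g = ∑ᶠ χ ∈ Irr G, (m χ : ℂ) * χ g

variable {E G : Type} [Field E] [Group G] {c : ℂ}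

/-- **Deligne's conjecture** at `c` for the character `f` of `G` with values in `E' ⊇ E`: for one
`e ∈ E'`, at every embedding `τ` of `E'`, the value at `c` of the L-function of `f` at `τ` (the product of
the L-functions of the irreducible constituents of `τ ∘ f`) is `τ e` times the period of `f` at `τ`. -/
def Holds (D : Twists E G c) (E' : Type) [Field E'] [Algebra E E'] (f : G → E') : Prop :=
  ∃ e : E', ∀ (τ : E' →+* ℂ) (m : (G → ℂ) → ℕ), IsSum (fun g => τ (f g)) m →
    Tendsto (fun s => ∏ᶠ χ ∈ Irr G, D.L (τ.comp (algebraMap E E')) χ s ^ m χ) (𝓝[≠] c)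
      (𝓝 (τ e * ∏ᶠ χ ∈ Irr G, D.P (τ.comp (algebraMap E E')) χ ^ m χ))

/-- the order at `c` of the product of the L-functions of the irreducible characters `χ` of `G`, each with
the exponent `m χ` -/
noncomputable def order (D : Twists E G c) (τ : E →+* ℂ) (m : (G → ℂ) → ℕ) : WithTop ℤ :=
  meromorphicOrderAt (fun s => ∏ᶠ χ ∈ Irr G, D.L τ χ s ^ m χ) c

open Classical in
/-- the function induced from a function on a subgroup: `(Ind f) g` is the sum of the values of `f` at
the conjugates `x⁻¹ g x ∈ H`, `x ∈ G`, divided by `|H|` -/
noncomputable def Ind {k : Type*} [Field k] (H : Subgroup G) (f : H → k) (g : G) : k :=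
  (Nat.card H : k)⁻¹ * ∑ᶠ x : G, if h : x⁻¹ * g * x ∈ H then f ⟨x⁻¹ * g * x, h⟩ else 0

/-- the stabilizer of a linear character of the normal subgroup `N` under conjugation -/
def Stabilizer {M : Type} [CommGroup M] {N : Subgroup G} [N.Normal] (lam : N →* M) : Subgroup G where
  carrier := {g | ∀ n : N, lam (MulAut.conjNormal g n) = lam n}
  one_mem' := fun n => by simp
  mul_mem' := fun {a b} ha hb n => by
    rw [map_mul, MulAut.mul_apply, ha, hb]
  inv_mem' := fun {a} ha n => by
    rw [← ha (MulAut.conjNormal a⁻¹ n), ← MulAut.mul_apply, ← map_mul, mul_inv_cancel, map_one,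
      MulAut.one_apply]

/-- the order at `c`, at the embedding `τ` of `E'`, of the L-function of the representation induced from
the linear character `lam` of `N` is less than `b` -/
def OrderBelow (D : Twists E G c) {E' : Type} [Field E'] [Algebra E E'] (τ : E' →+* ℂ) {N : Subgroup G}
    (lam : N →* E'ˣ) (b : ℕ) : Prop :=
  ∃ m : (G → ℂ) → ℕ, IsSum (Ind N (fun x => τ ((lam x : E'ˣ) : E'))) m ∧
    order D (τ.comp (algebraMap E E')) m < b

theorem result {E : Type} [Field E] {G : Type} [Group G] [Finite G] {c : ℂ} (D : Twists E G c)
    (E' : Type) [Field E'] [Algebra E E'] [Algebra.IsAlgebraic E E'] (ζ : E')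
    (hζ : IsPrimitiveRoot ζ (Monoid.exponent G)) (N : Subgroup G) [N.Normal]
    (hmon : ∀ (U : Subgroup G) (ψ : U →* E'ˣ), N ≤ U →
      Holds D E' (Ind U (fun u => ((ψ u : E'ˣ) : E'))))
    {V : Type} [AddCommGroup V] [Module E V] [FiniteDimensional E V] (ρ : Representation E G V)
    (hρ : ∀ k ∈ ⁅N, N⁆, ∀ v, ρ k v = v)
    (hlam : ∀ lam : N →* E'ˣ,
      ∑ᶠ n : N, algebraMap E E' (ρ.character n) * (((lam n)⁻¹ : E'ˣ) : E') ≠ 0 →
        Group.IsNilpotent (Stabilizer lam ⧸ N.subgroupOf (Stabilizer lam)) ∨
        (∃ τ : E' →+* ℂ, OrderBelow D τ lam 2) ∨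
        (Group.IsSolvable (Stabilizer lam) ∧ ∃ τ : E' →+* ℂ,
          ∀ p : ℕ, p.Prime → p ∣ Nat.card (Stabilizer lam) → OrderBelow D τ lam p)) :
    Holds D E ρ.character := by
  classical
  by_cases hE : Nonempty (E →+* ℂ)
  swap
  · exact ⟨1, fun τ => absurd ⟨τ⟩ hE⟩
  obtain ⟨τE⟩ := hE
  obtain ⟨τ₀⟩ : Nonempty (E' →+* ℂ) := by
    let _ : Algebra E ℂ := τE.toAlgebra
    exact ⟨(IsAlgClosed.lift : E' →ₐ[E] ℂ).toRingHom⟩
  have key : ∀ {f : G → E}, Pool.Agent.R389.Deligne D.L D.P c f → Holds D E f := by
    intro f h
    rw [← Run7.h988.DG.up_self D.L, ← Run7.h988.DG.up_self D.P] at h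
    exact h
  have hst : ∀ lam : N →* E'ˣ, Pool.Agent.R389.stb (Run7.h988.DR.lmu τ₀ lam) = Stabilizer lam := by
    intro lam
    ext g
    constructor
    · intro hg n
      exact Run7.h988.DR.lam_inv τ₀ lam hg n
    · intro hg
      rw [Pool.Agent.R389.mem_stb]
      refine MonoidHom.ext fun n => ?_
      rw [Pool.Agent.R389.cmu_apply]
      apply Units.ext
      have h1 := (Stabilizer lam).inv_mem hg n
      rw [Run7.h988.DR.lmu_apply, Run7.h988.DR.lmu_apply, h1]
  have hord : ∀ (τ : E' →+* ℂ) (lam : N →* E'ˣ) (b : ℕ), OrderBelow D τ lam b →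
      ∀ m : (G → ℂ) → ℕ, Pool.Agent.R389.IsDecomp
        (Pool.Agent.R389.ind N (fun x => ((Run7.h988.DR.lmu τ lam x : ℂˣ) : ℂ))) m →
        meromorphicOrderAt (fun s => ∏ᶠ η ∈ Irr G, D.L (τ.comp (algebraMap E E')) η s ^ m η) c < b := by
    rintro τ lam b ⟨m', hm', hlt⟩ m hm
    have hm'' : Pool.Agent.R389.IsDecomp
        (Pool.Agent.R389.ind N (fun x => ((Run7.h988.DR.lmu τ lam x : ℂˣ) : ℂ))) m' := hm'
    have h1 : (fun s => ∏ᶠ η ∈ Irr G, D.L (τ.comp (algebraMap E E')) η s ^ m η) =
        fun s => ∏ᶠ η ∈ Irr G, D.L (τ.comp (algebraMap E E')) η s ^ m' η := by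
      funext s
      refine finprod_mem_congr rfl fun η hη => ?_
      have h2 := (hm.pr hη).symm.trans (hm''.pr hη)
      have h3 : m η = m' η := by exact_mod_cast h2
      rw [h3]
    rw [h1]
    exact hlt
  refine key (Run7.h988.DG.descend_rep (E' := E') (τ₀.comp (algebraMap E E')) D.ne ρ fun n σ hσ => ?_)
  refine Run7.h988.DR.main_abel (L := Run7.h988.DG.up E' D.L) (P := Run7.h988.DG.up E' D.P) hζ
    (fun τ => D.mero _) (fun τ => D.ne _) N hmon τ₀ σ ?_ ?_
  · intro g k hk
    have h1 : ρ (g * k) = ρ g := by
      refine LinearMap.ext fun v => ?_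
      rw [map_mul, Module.End.mul_apply, hρ k hk]
    rw [hσ]
    change algebraMap E E' (LinearMap.trace E V (ρ (g * k))) = algebraMap E E' (LinearMap.trace E V (ρ g))
    rw [h1]
  · intro lam hne
    rw [hσ] at hne
    rw [hst lam]
    rcases hlam lam hne with h | ⟨τ, h⟩ | ⟨hs, τ, h⟩
    · exact Or.inl h
    · refine Or.inr (Or.inl ⟨τ, fun m hm => ?_⟩)
      have h1 := hord τ lam 2 h m hm
      have h2 : ∀ a : WithTop ℤ, a < ((2 : ℕ) : WithTop ℤ) → a ≤ 1 := by
        intro a ha
        induction a using WithTop.recTopCoe with
        | top => exact absurd ha (by simp)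
        | coe a =>
          have h3 : (a : WithTop ℤ) < ((2 : ℤ) : WithTop ℤ) := ha
          have h4 : a < 2 := WithTop.coe_lt_coe.mp h3
          have h5 : a ≤ 1 := by omega
          exact_mod_cast h5
      exact h2 _ h1
    · exact Or.inr (Or.inr ⟨hs, τ, fun m hm p hp hpd => hord τ lam p (h p hp hpd) m hm⟩)

end Pool.Agent.Results.MP_b696eb_nt.AbelianOverNormal
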