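import Pool.Agent.Run7.h810.DL.KMain

namespace Pool.Agent.Results.MP_b696eb_nt.OverNumberFields

open Pool.Agent.Run7.h810.DL NumberField

/-- Let `M` be a motive with rational coefficients such that Deligne's relation holds for the twists
by Dirichlet characters, and such that, for the number fields which are reached by cyclic steps of
prime degree or by cubic steps from `ℚ` or from subfields of solvable totally real or CM fields, the
quotients of the values of two twists of `M` by characters of the same signature have the expected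
form. Then Deligne's conjecture holds for `M` over every number field `K` which is contained in a
nilpotent extension of `ℚ` or in a solvable totally real or CM field: the value at `m` is a rational
multiple of `√(disc K)^r P^(r₁ + r₂) Q^(r₂)`. -/
theorem result (r : ℕ) (m : ℂ) (t : ℕ → ℚ) (b : ℝ) (P Q : ℂ) (hP : P ≠ 0) (hQ : Q ≠ 0)
    (hDir : ∀ (τ : ℂ ≃+* ℂ) (E : Fld) (ρ : Rep E 1),
      Del τ r m (fun k => (t k : ℂ)) b P Q P Q ρ)
    (hQuo : ∀ (τ : ℂ ≃+* ℂ) (E : Fld) (H : Subgroup (Gal E)) (ψ ψ' : Gal E → ℂ) (n : ℕ)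
      (ρ ρ' : Rep E n), Good E H → Agree ψ ψ' → IsInd H ψ ρ → IsInd H ψ' ρ' →
        Con τ (fun k => (t k : ℂ)) b ρ ∧ Con τ (fun k => (t k : ℂ)) b ρ' ∧
          Rel τ r m (fun k => (t k : ℂ)) b ρ ρ')
    (K : Type) [Field K] [NumberField K] (E : Fld) [Algebra K E.N]
    (hE : Group.IsNilpotent (Gal E) ∨ (Group.IsSolvable (Gal E) ∧ RealOrCM E) ∨
      ∀ V : Subgroup (Gal E), Group.IsNilpotent V → Good E V) :
    ∃ f : ℂ → ℂ, IsLK (fun k => (t k : ℂ)) b K f ∧
      ∀ w : ℂ, w ^ 2 = NumberField.discr K → ∃ q : ℚ, val f m = q * w ^ r *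
        P ^ (InfinitePlace.nrRealPlaces K + InfinitePlace.nrComplexPlaces K) *
          Q ^ InfinitePlace.nrComplexPlaces K :=
  number_field hP hQ adm_good hDir hQuo K E (nice_of E hE)

end Pool.Agent.Results.MP_b696eb_nt.OverNumberFields
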