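import Mathlib
import Pool.Agent.Run7.h488.DT.Main
import Pool.Agent.Run7.h488.DT.Nb

/-!
# Deligne's conjecture for the rational Artin twists of a motive, with vanishing values

`M` is a motive over `ℚ` with rational coefficients, `N` a finite Galois extension of `ℚ` with group
`G`, and `m` a critical integer. If Deligne's conjecture holds for the twists `M ⊗ Ind ψ` by the
characters `ψ` of the subgroups of `G` (that is, for the base changes of `M` to the subfields of
`N`, twisted by characters), and if `L(s, M / N)` vanishes at `m` to order at most two, then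
Deligne's conjecture holds for `M ⊗ ρ`, for all representations `ρ` of `G` over `ℚ`.
-/

set_option autoImplicit false

namespace Pool.Agent.Results.MP_b696eb_nt.RationalTwists

open Filter
open scoped Topology

/-- `f` is the L-function `L(s, M ⊗ χ)`: it is meromorphic on `ℂ`, and for `Re s > b` it is
`exp (∑ T(p, n)(χ) / (n p ^ (n s)))`, where `T(p, n)(χ)`, which is additive in `χ`, is for the
character `χ` of a representation `ρ` the trace of the `n`-th power of Frobenius at `p` (geometric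
on `M`, arithmetic on `ρ`) on the inertia invariants of `M ⊗ ρ`. -/
def IsL {G : Type} (T : Nat.Primes → ℕ+ → (G → ℂ) →+ ℂ) (b : ℝ) (χ : G → ℂ) (f : ℂ → ℂ) : Prop :=
  (∀ z, MeromorphicAt f z) ∧
    ∀ s : ℂ, b < s.re → ∃ l, HasSum (fun x : Nat.Primes × ℕ+ =>
      T x.1 x.2 χ / ((x.2 : ℕ) * ((x.1 : ℕ) : ℂ) ^ (((x.2 : ℕ) : ℂ) * s))) l ∧ f s = Complex.exp l

open Classical in
/-- The character of `G` which is induced from the character `ψ` of the subgroup `U`. -/
noncomputable def indChar {G : Type} [Group G] {E : Type} [Field E] (U : Subgroup G) (ψ : U →* Eˣ)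
    (g : G) : E :=
  (Nat.card U : E)⁻¹ * ∑ᶠ y : G, if h : y⁻¹ * g * y ∈ U then ((ψ ⟨_, h⟩ : Eˣ) : E) else 0

open Classical in
/-- The character of the regular representation of `G`. -/
noncomputable def regChar (G : Type) [Group G] (g : G) : ℂ := if g = 1 then (Nat.card G : ℂ) else 0

/-- `Ω` is the period of `M ⊗ ρ`, for a representation `ρ` with the character `χ`: it is
`det (∑ φ(g x) ρ(g)) ^ r * P ^ a * Q ^ d`, if `ρ(c)`, for the complex conjugation `c`, has the
eigenvalue `1` with multiplicity `a` and the eigenvalue `-1` with multiplicity `d`. Here `P` and `Q`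
are the periods `(2 π i) ^ (m r) c^±(M)` of `M` for the two signs, and `2 r` is the rank of `M` (if
`M` has no `(w / 2, w / 2)`-classes; if `N` is totally real, then `d = 0`, and `M` can be any
critical motive, with `r` the dimension of `M_B^±`). -/
def IsPeriod {N : Type} [Field N] [NumberField N] (φ : N →+* ℂ) (x : N) (c : N ≃ₐ[ℚ] N) (r : ℕ)
    (P Q : ℂ) (χ : (N ≃ₐ[ℚ] N) → ℂ) (Ω : ℂ) : Prop :=
  ∃ (n : ℕ) (ρ : (N ≃ₐ[ℚ] N) →* Matrix (Fin n) (Fin n) ℂ) (a d : ℕ), (∀ g, (ρ g).trace = χ g) ∧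
    a + d = n ∧ χ c = a - d ∧ Ω = (∑ g, φ (g x) • ρ g).det ^ r * P ^ a * Q ^ d

/-- **Deligne's conjecture** at `m` for the motive `M ⊗ ρ` with coefficients in `E`, where `F` is the
character of the representation `ρ` over `E`: there is one element `e` of `E` such that for every
embedding `τ` of `E` the value at `m` of `L(s, M ⊗ τρ)` is `τ(e)` times the period of `M ⊗ τρ`. -/
def Deligne {N : Type} [Field N] [NumberField N] (T : Nat.Primes → ℕ+ → ((N ≃ₐ[ℚ] N) → ℂ) →+ ℂ)
    (b : ℝ) (m : ℂ) (φ : N →+* ℂ) (x : N) (c : N ≃ₐ[ℚ] N) (r : ℕ) (P Q : ℂ) {E : Type} [Field E]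
    (F : (N ≃ₐ[ℚ] N) → E) : Prop :=
  ∃ e : E, ∀ (τ : E →+* ℂ) (f : ℂ → ℂ) (Ω : ℂ), IsL T b (fun g => τ (F g)) f →
    IsPeriod φ x c r P Q (fun g => τ (F g)) Ω → Tendsto f (𝓝[≠] m) (𝓝 (τ e * Ω))

/-- Let `N` be a finite Galois extension of `ℚ` with group `G`, embedded in `ℂ` by `φ`, with the
complex conjugation `c`, and let `x` be a generator of a normal basis. Let `E` be a number field
which contains the roots of unity of order the exponent of `G`, let `M` be a motive with rational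
coefficients, with the periods `P` and `Q`, and `m` a critical integer. Suppose that for all
subgroups `U` of `G` and all characters `ψ : U → Eˣ` the L-functions of `M ⊗ Ind ψ` have meromorphic
continuations and that Deligne's conjecture with coefficients in `E` holds for `M ⊗ Ind ψ` at `m`.
Suppose that the order of vanishing at `m` of `L(s, M / N)`, the L-function of the twist by the
regular representation of `G`, is at most two. Let `ρ` be a representation of `G` over `ℚ`. Then the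
L-function `f` of `M ⊗ ρ` has a meromorphic continuation, and if it has no pole at `m`, its value at
`m` is a rational multiple of the period `Ω` of `M ⊗ ρ`. -/
theorem result {N : Type} [Field N] [NumberField N] [IsGalois ℚ N] {E : Type} [Field E]
    [NumberField E] {ζ : E} (hζ : IsPrimitiveRoot ζ (Monoid.exponent (N ≃ₐ[ℚ] N)))
    (T : Nat.Primes → ℕ+ → ((N ≃ₐ[ℚ] N) → ℂ) →+ ℂ) (b : ℝ) (m : ℂ) (r : ℕ) (P Q : ℂ) (hP : P ≠ 0)
    (hQ : Q ≠ 0) (φ : N →+* ℂ) (c : N ≃ₐ[ℚ] N) (hc : ∀ y, φ (c y) = star (φ y)) (x : N)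
    (hx : LinearIndependent ℚ fun g : N ≃ₐ[ℚ] N => g x)
    (hcon : ∀ (U : Subgroup (N ≃ₐ[ℚ] N)) (ψ : U →* Eˣ) (τ : E →+* ℂ),
      ∃ f, IsL T b (fun g => τ (indChar U ψ g)) f)
    (hdel : ∀ (U : Subgroup (N ≃ₐ[ℚ] N)) (ψ : U →* Eˣ), Deligne T b m φ x c r P Q (indChar U ψ))
    (hord : ∀ f, IsL T b (regChar (N ≃ₐ[ℚ] N)) f → meromorphicOrderAt f m ≤ 2)
    {n : ℕ} (ρ : (N ≃ₐ[ℚ] N) →* Matrix (Fin n) (Fin n) ℚ) :
    ∃ (f : ℂ → ℂ) (Ω : ℂ), IsL T b (fun g => (((ρ g).trace : ℚ) : ℂ)) f ∧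
      IsPeriod φ x c r P Q (fun g => (((ρ g).trace : ℚ) : ℂ)) Ω ∧ Ω ≠ 0 ∧
      (0 ≤ meromorphicOrderAt f m → ∃ q : ℚ, Tendsto f (𝓝[≠] m) (𝓝 (q * Ω))) := by
  have hind : ∀ (U : Subgroup (N ≃ₐ[ℚ] N)) (ψ : U →* Eˣ),
      Pool.Agent.R389.ind U (fun u => ((ψ u : Eˣ) : E)) = indChar U ψ := fun _ _ => rfl
  have hper : ∀ (χ : (N ≃ₐ[ℚ] N) → ℂ) (Ω : ℂ),
      Run7.h488.DT.IsPer (fun g => φ (g x)) c r P Q χ Ω ↔ IsPeriod φ x c r P Q χ Ω := by
    intro χ Ω
    unfold Run7.h488.DT.IsPer IsPeriod Run7.h488.DT.rs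
    simp only [finsum_eq_sum_of_fintype]
  have hcc : c * c = 1 := by
    ext y
    apply φ.injective
    change φ (c (c y)) = φ y
    rw [hc, hc, star_star]
  obtain ⟨f, Ω, h1, h2, h3⟩ := Run7.h488.DT.main (b := b) (T := T) (m := m) (c := c) (r := r)
    (w := fun g => φ (g x)) hζ hP hQ hcc (fun n ρ => Run7.h488.DT.det_ne φ hx n ρ)
    (fun U ψ τ => by rw [hind]; exact hcon U ψ τ)
    (fun U ψ => by
      rw [hind]
      obtain ⟨e, he⟩ := hdel U ψ
      exact ⟨e, fun τ f Ω hf hΩ => he τ f Ω hf ((hper _ _).mp hΩ)⟩)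
    (reg := regChar (N ≃ₐ[ℚ] N)) (if_pos rfl) (fun g hg => if_neg hg) hord ρ
  exact ⟨f, Ω, h1, (hper _ _).mp h2,
    h2.ne hP hQ fun n ρ => Run7.h488.DT.det_ne φ hx n ρ, h3⟩

end Pool.Agent.Results.MP_b696eb_nt.RationalTwists
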