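import Mathlib
import Pool.Agent.Run7.h508.BR.Zero
import Pool.Agent.Run7.h508.BR.Val

/-!
# Critical values over all number fields and everywhere unramified extensions of prime degree

Let `M` be a motive over a number field `k`, `c` a point and `Γ` a subgroup of `ℂˣ` (for example
`ℚˣ` or the group of all algebraic numbers). We consider the statement, for number fields `K ⊇ k`,
that some power of `L(M/K, s)` has a meromorphic continuation with a nonzero value at `c`, and that
this value is the power of `A ^ [K : k] ∏ B_v ^ r_v(K)`, up to a factor in `Γ`. Here `v` runs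
through the real places of `k`, and `r_v(K)` is the number of the real places of `K` over `v`. For a
motive over `ℚ`, this number has the form `P ^ (r₁ + r₂) Q ^ r₂`; this is the period of
`M ⊗ h(K)` which appears in Deligne's conjecture, up to a square root of a rational number, if
`P` and `Q` are the periods of `M`, and `c` is critical.

If the statement holds for one totally complex field `K₀ ⊇ k`, and for every real place `v` of `k`
for one field `K_v ⊇ k` whose real places all lie over `v` (for `k = ℚ`: over `ℚ`), then it holds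
for all number fields `K ⊇ k` if and only if it holds for the quotients `L(M/L, c) / L(M/K, c)`,
where `L/K` is an everywhere unramified extension of prime degree of a totally complex field,
completely split above a given integer `m`.
-/

set_option autoImplicit false
set_option linter.unusedSectionVars false

namespace Pool.Agent.Results.MP_b696eb_nt.UnramifiedCriticalValues

open NumberField IsDedekindDomain

/-- The prime of `k` below a prime of `K`. -/
noncomputable def below (k : Type) [Field k] [NumberField k] {K : Type} [Field K] [NumberField K]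
    [Algebra k K] (w : HeightOneSpectrum (𝓞 K)) : HeightOneSpectrum (𝓞 k) where
  asIdeal := w.asIdeal.under (𝓞 k)
  isPrime := by
    have := w.isPrime
    infer_instance
  ne_bot := mt Ideal.eq_bot_of_comap_eq_bot w.ne_bot

/-- The term of `log L(M/K, s)` of the power `w ^ n`. The numbers `a v n` are the traces of the
`n`-th powers of the Frobenius automorphisms of `M` at the primes `v` of `k`; the trace of the
`n`-th power of the Frobenius automorphism at `w` is `a v (f n)`, if `f` is the degree of the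
residue field extension. -/
noncomputable def term {k : Type} [Field k] [NumberField k] (a : HeightOneSpectrum (𝓞 k) → ℕ → ℂ)
    (K : Type) [Field K] [NumberField K] [Algebra k K] (s : ℂ)
    (x : HeightOneSpectrum (𝓞 K) × ℕ+) : ℂ :=
  a (below k x.1) (x.1.asIdeal.inertiaDeg (𝓞 k) * x.2) /
    ((x.2 : ℕ) * (Ideal.absNorm x.1.asIdeal : ℂ) ^ (((x.2 : ℕ) : ℂ) * s))

/-- `log L(M/K, s)`. -/
noncomputable def logL {k : Type} [Field k] [NumberField k] (a : HeightOneSpectrum (𝓞 k) → ℕ → ℂ)
    (K : Type) [Field K] [NumberField K] [Algebra k K] (s : ℂ) : ℂ :=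
  ∑' x : HeightOneSpectrum (𝓞 K) × ℕ+, term a K s x

/-- For some `n > 0` the `n`-th power of the function `exp (l s)`, `Re s > b + 1`, has a meromorphic
continuation to `ℂ`, which is analytic at `c` with the value `x ^ n`, up to a factor in `Γ`. -/
def Holds (b : ℝ) (c : ℂ) (Γ : Subgroup ℂˣ) (l : ℂ → ℂ) (x : ℂˣ) : Prop :=
  ∃ n : ℕ, 0 < n ∧ ∃ Z : ℂ → ℂ, MeromorphicOn Z Set.univ ∧
    (∀ s : ℂ, b + 1 < s.re → Z s = Complex.exp (n * l s)) ∧ AnalyticAt ℂ Z c ∧
    ∃ γ ∈ Γ, Z c = ((γ * x ^ n : ℂˣ) : ℂ)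

/-- The statement for `M` over `K`, with the period `p K`. -/
def Value {k : Type} [Field k] [NumberField k] (a : HeightOneSpectrum (𝓞 k) → ℕ → ℂ) (b : ℝ)
    (c : ℂ) (Γ : Subgroup ℂˣ)
    (p : ∀ (K : Type) [Field K] [NumberField K] [Algebra k K], ℂˣ)
    (K : Type) [Field K] [NumberField K] [Algebra k K] : Prop :=
  Holds b c Γ (logL a K) (p K)

/-- The statement for the quotient `L(M/L, c) / L(M/K, c)`. -/
def QuotientValue {k : Type} [Field k] [NumberField k] (a : HeightOneSpectrum (𝓞 k) → ℕ → ℂ)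
    (b : ℝ) (c : ℂ) (Γ : Subgroup ℂˣ)
    (p : ∀ (K : Type) [Field K] [NumberField K] [Algebra k K], ℂˣ)
    (K L : Type) [Field K] [NumberField K] [Algebra k K] [Field L] [NumberField L]
    [Algebra k L] : Prop :=
  Holds b c Γ (fun s => logL a L s - logL a K s) (p L / p K)

/-- All inertia groups of `L/K` are trivial, and the decomposition groups of the primes above `m`
are trivial. -/
def UnramifiedSplit (m : ℕ) (K L : Type) [Field K] [Field L] [Algebra K L] : Prop :=
  ∀ P : Ideal (𝓞 L), P.IsMaximal → ∀ g : L ≃ₐ[K] L,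
    ((∀ x y : 𝓞 L, (y : L) = g x → y - x ∈ P) → g = 1) ∧
    ((m : 𝓞 L) ∈ P → (∀ x y : 𝓞 L, (y : L) = g x → (y ∈ P ↔ x ∈ P)) → g = 1)

/-- The statement for the quotients in the everywhere unramified extensions of prime degree, split
above `m`, of totally complex fields `K ⊇ k`. -/
def UnramifiedCase {k : Type} [Field k] [NumberField k] (a : HeightOneSpectrum (𝓞 k) → ℕ → ℂ)
    (b : ℝ) (c : ℂ) (Γ : Subgroup ℂˣ)
    (p : ∀ (K : Type) [Field K] [NumberField K] [Algebra k K], ℂˣ) (m : ℕ) : Prop :=
  ∀ (K L : Type) [Field K] [NumberField K] [Field L] [NumberField L] [Algebra k K] [Algebra K L]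
    [Algebra k L] [IsScalarTower k K L] [IsGalois K L], IsTotallyComplex K →
    (Module.finrank K L).Prime → UnramifiedSplit m K L → QuotientValue a b c Γ p K L

/-- The number of the real embeddings of `K` over the embedding `v` of `k`. -/
noncomputable def realAbove {k : Type} [Field k] (v : k →+* ℂ) (K : Type) [Field K] [Algebra k K] :
    ℕ := Nat.card {χ : K →+* ℂ // ComplexEmbedding.IsReal χ ∧ χ.comp (algebraMap k K) = v}

/-- The period `A ^ [K : k] ∏ B_v ^ r_v(K)`. -/
noncomputable def period {k : Type} [Field k] [NumberField k] (A : ℂˣ) (B : (k →+* ℂ) → ℂˣ)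
    (K : Type) [Field K] [NumberField K] [Algebra k K] : ℂˣ :=
  A ^ Module.finrank k K * ∏ v : k →+* ℂ, B v ^ realAbove v K

/-- The period `P ^ (r₁ + r₂) Q ^ r₂`. -/
noncomputable def periodRat (P Q : ℂˣ) (K : Type) [Field K] [NumberField K] [Algebra ℚ K] : ℂˣ :=
  P ^ (InfinitePlace.nrRealPlaces K + InfinitePlace.nrComplexPlaces K) *
    Q ^ InfinitePlace.nrComplexPlaces K

open Pool.Agent.Run7.h508.BR in
lemma unrSplit_of {m : ℕ} {K L : Type} [Field K] [Field L] [Algebra K L]
    (h : UnrSplit m K L) : UnramifiedSplit m K L := by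
  intro P hP g
  refine ⟨fun h1 => (h P hP).1 g fun x => h1 x _ rfl, fun hm h1 => (h P hP).2 hm g fun x =>
    h1 x _ rfl⟩

open Pool.Agent.Run7.h508.BR in
lemma holds_iff {J : Type} [Fintype J] {b : ℝ} {c : ℂ} {Γ : Subgroup ℂˣ} {p : J → ℂˣ}
    {l l' : ℂ → ℂ} {r : J → ℚ} {e : J → ℤ} (hr : ∀ j, r j = e j)
    (h : ∀ s : ℂ, b + 1 < s.re → l s = l' s) :
    Holds b c Γ l (∏ j, p j ^ e j) ↔ VWCont (b + 1) c Γ p l' r := by
  have hpow : ∀ n : ℕ, (∏ j, p j ^ e j) ^ n = ∏ j, p j ^ ((n : ℤ) * e j) := by
    intro n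
    rw [← Finset.prod_pow]
    refine Finset.prod_congr rfl fun j _ => ?_
    rw [mul_comm, zpow_mul, zpow_natCast]
  constructor
  · rintro ⟨n, hn, Z, h1, h2, h3, γ, h4, h5⟩
    refine ⟨n, hn, fun j => n * e j, fun j => ?_, Z, h1, fun s hs => ?_, h3, γ, h4, ?_⟩
    · rw [hr]
      push_cast
      rfl
    · rw [h2 s hs, h s hs, Pi.smul_apply, nsmul_eq_mul]
    · rw [h5, hpow]
  · rintro ⟨n, hn, m, hm, Z, h1, h2, h3, γ, h4, h5⟩
    refine ⟨n, hn, Z, h1, fun s hs => ?_, h3, γ, h4, ?_⟩
    · rw [h2 s hs, h s hs, Pi.smul_apply, nsmul_eq_mul]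
    · have h6 : m = fun j => (n : ℤ) * e j := by
        funext j
        have h7 := hm j
        rw [hr] at h7
        exact_mod_cast h7
      rw [h5, hpow, h6]

lemma prod_zpow_sum {ι : Type} (s : Finset ι) (f : ι → ℤ) (x : ℂˣ) :
    ∏ i ∈ s, x ^ f i = x ^ ∑ i ∈ s, f i := by
  classical
  induction s using Finset.induction_on with
  | empty => simp
  | insert a s ha ih => rw [Finset.prod_insert ha, Finset.sum_insert ha, zpow_add, ih]

section proof

open Pool.Agent.Run7.h508.BR

variable {k : Type} [Field k] [NumberField k] (a : HeightOneSpectrum (𝓞 k) → ℕ → ℂ)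

/-- the weights as a function of pairs -/
noncomputable def wt (x : HeightOneSpectrum (𝓞 k) × ℕ+) : ℂ := a x.1 x.2

lemma logL_eq (K : Type) [Field K] [NumberField K] [Algebra k K] (s : ℂ) :
    logL a K s = Lam (wt a) K s := rfl

variable {b C : ℝ} (ha : ∀ (v : HeightOneSpectrum (𝓞 k)) (n : ℕ), 0 < n →
  ‖a v n‖ ≤ C * (Ideal.absNorm v.asIdeal : ℝ) ^ (b * n)) (c : ℂ) (Γ : Subgroup ℂˣ) (A : ℂˣ)
  (B : (k →+* ℂ) → ℂˣ)

/-- the periods -/
def pp : Option (k →+* ℂ) → ℂˣ
  | none => A
  | some v => B v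

/-- the exponents -/
noncomputable def ex (k : Type) [Field k] [NumberField k] (K : Type) [Field K] [NumberField K]
    [Algebra k K] : Option (k →+* ℂ) → ℤ
  | none => Module.finrank k K
  | some v => realAbove v K

/-- the exponents as a function of number fields -/
noncomputable def exFun (k : Type) [Field k] [NumberField k] :
    Option (k →+* ℂ) → FieldFun k ℚ
  | none => degFun k
  | some v => realFunV v

lemma exFun_f (K : Type) [Field K] [NumberField K] [Algebra k K] (j : Option (k →+* ℂ)) :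
    (exFun k j).f K = ((ex k K j : ℤ) : ℚ) := by
  cases j with
  | none => rfl
  | some v =>
    change ((Pool.Agent.Run7.h508.BR.realAbove v K : ℕ) : ℚ) = (((realAbove v K : ℕ) : ℤ) : ℚ)
    rw [Int.cast_natCast]
    rfl

lemma period_eq (K : Type) [Field K] [NumberField K] [Algebra k K] :
    period A B K = ∏ j, pp A B j ^ ex k K j := by
  rw [Fintype.prod_option, period]
  change _ = A ^ ((Module.finrank k K : ℕ) : ℤ) * ∏ v : k →+* ℂ, B v ^ ((realAbove v K : ℕ) : ℤ)
  simp only [zpow_natCast]

include ha in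
lemma bd (x : HeightOneSpectrum (𝓞 k) × ℕ+) :
    ‖wt a x‖ ≤ C * (Ideal.absNorm x.1.asIdeal : ℝ) ^ (b * (x.2 : ℕ)) := ha x.1 x.2 x.2.pos

/-- the pair of the logarithm of the L-function and the exponents, modulo the statement -/
noncomputable def defect : FieldFun k (((ℂ → ℂ) × (Option (k →+* ℂ) → ℚ)) ⧸
    vSub (b + 1) c Γ (pp A B)) :=
  ((gfun (wt a) (bd a ha)).pair (FieldFun.pi (exFun k))).comp
    (vSub (b + 1) c Γ (pp A B)).mkQ.toAddMonoidHom

/-- the pair of the logarithm of the L-function and the exponents -/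
noncomputable def vec (b : ℝ) (K : Type) [Field K] [NumberField K] [Algebra k K] :
    (ℂ → ℂ) × (Option (k →+* ℂ) → ℚ) :=
  (fun s => if b + 1 < s.re then Lam (wt a) K s else 0, fun j => ((ex k K j : ℤ) : ℚ))

lemma defect_f (K : Type) [Field K] [NumberField K] [Algebra k K] :
    (defect a ha c Γ A B).f K = (vSub (b + 1) c Γ (pp A B)).mkQ (vec a b K) := by
  change (vSub (b + 1) c Γ (pp A B)).mkQ
    (((gfun (wt a) (bd a ha)).f K, fun j => (exFun k j).f K)) = _
  have h1 : (fun j => (exFun k j).f K) = fun j => ((ex k K j : ℤ) : ℚ) :=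
    funext fun j => exFun_f K j
  rw [h1]
  congr 1

lemma value_iff (K : Type) [Field K] [NumberField K] [Algebra k K] :
    Value a b c Γ (fun K => period A B K) K ↔ (defect a ha c Γ A B).f K = 0 := by
  rw [defect_f, Submodule.mkQ_apply, Submodule.Quotient.mk_eq_zero, mem_vSub, Value, period_eq]
  refine holds_iff (fun j => rfl) (fun s hs => ?_)
  rw [logL_eq]
  change _ = if b + 1 < s.re then Lam (wt a) K s else 0
  rw [if_pos hs]

lemma quot_iff (K L : Type) [Field K] [NumberField K] [Algebra k K] [Field L]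
    [NumberField L] [Algebra k L] :
    QuotientValue a b c Γ (fun K => period A B K) K L ↔
      (defect a ha c Γ A B).f K = (defect a ha c Γ A B).f L := by
  rw [eq_comm, ← sub_eq_zero, defect_f, defect_f, ← map_sub, Submodule.mkQ_apply,
    Submodule.Quotient.mk_eq_zero, mem_vSub, QuotientValue]
  have h1 : period A B L / period A B K = ∏ j, pp A B j ^ (ex k L j - ex k K j) := by
    rw [period_eq, period_eq, ← Finset.prod_div_distrib]
    refine Finset.prod_congr rfl fun j _ => ?_
    rw [zpow_sub, div_eq_mul_inv]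
  rw [h1]
  refine holds_iff (fun j => ?_) (fun s hs => ?_)
  · change ((ex k L j : ℤ) : ℚ) - ((ex k K j : ℤ) : ℚ) = _
    push_cast
    rfl
  · rw [logL_eq, logL_eq]
    change _ = (if b + 1 < s.re then Lam (wt a) L s else 0) -
      (if b + 1 < s.re then Lam (wt a) K s else 0)
    rw [if_pos hs, if_pos hs]

lemma noChange_of {m : ℕ} (h : UnramifiedCase a b c Γ (fun K => period A B K) m) :
    NoChange (defect a ha c Γ A B) m := by
  intro K L _ _ _ _ _ _ _ _ _ hK hp hu
  exact (quot_iff a ha c Γ A B K L).mp (h K L hK hp (unrSplit_of hu))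

include ha in
/-- the relations -/
lemma relation_of {m : ℕ} (hm : m ≠ 0) (h : UnramifiedCase a b c Γ (fun K => period A B K) m)
    (K₀ : Type) [Field K₀] [NumberField K₀] [Algebra k K₀] (hK₀ : IsTotallyComplex K₀) (ι : Type)
    [Fintype ι] (K : ι → Type) [∀ i, Field (K i)] [∀ i, NumberField (K i)] [∀ i, Algebra k (K i)]
    (t : ι → ℤ) (ht : ∀ v : k →+* ℂ, ∑ i, t i * (realAbove v (K i) : ℤ) = 0) :
    Holds b c Γ (fun s => ∑ i, t i * (logL a (K i) s - logL a K₀ s))
      (∏ i, (period A B (K i) / period A B K₀) ^ t i) := by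
  have key := real_formula_base (defect a ha c Γ A B) hm (noChange_of a ha c Γ A B h) K₀ hK₀ K
    (fun i => (t i : ℚ)) (fun v => by
      have h1 := congrArg (fun z : ℤ => (z : ℚ)) (ht v)
      push_cast at h1
      exact h1)
  have h1 : ∀ i, (t i : ℚ) • ((defect a ha c Γ A B).f (K i) - (defect a ha c Γ A B).f K₀) =
      (vSub (b + 1) c Γ (pp A B)).mkQ ((t i : ℚ) • (vec a b (K i) - vec a b K₀)) := by
    intro i
    rw [defect_f, defect_f, map_smul, map_sub]
  rw [Finset.sum_congr rfl (fun i _ => h1 i), ← map_sum, Submodule.mkQ_apply,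
    Submodule.Quotient.mk_eq_zero, mem_vSub] at key
  have h2 : ∏ i, (period A B (K i) / period A B K₀) ^ t i =
      ∏ j, pp A B j ^ (∑ i, t i * (ex k (K i) j - ex k K₀ j)) := by
    have h3 : ∀ i, (period A B (K i) / period A B K₀) ^ t i =
        ∏ j, pp A B j ^ (t i * (ex k (K i) j - ex k K₀ j)) := by
      intro i
      rw [period_eq, period_eq, ← Finset.prod_div_distrib, ← Finset.prod_zpow]
      refine Finset.prod_congr rfl fun j _ => ?_
      rw [mul_comm (t i), zpow_mul, zpow_sub, div_eq_mul_inv]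
    rw [Finset.prod_congr rfl fun i _ => h3 i, Finset.prod_comm]
    refine Finset.prod_congr rfl fun j _ => ?_
    exact prod_zpow_sum Finset.univ (fun i => t i * (ex k (K i) j - ex k K₀ j)) (pp A B j)
  rw [h2]
  refine (holds_iff (fun j => ?_) (fun s hs => ?_)).mpr key
  · rw [Prod.snd_sum, Finset.sum_apply]
    push_cast
    refine Finset.sum_congr rfl fun i _ => ?_
    rfl
  · rw [Prod.fst_sum, Finset.sum_apply]
    refine Finset.sum_congr rfl fun i _ => ?_
    rw [logL_eq, logL_eq]
    change _ = ((t i : ℚ) • ((if b + 1 < s.re then Lam (wt a) (K i) s else 0) -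
      (if b + 1 < s.re then Lam (wt a) K₀ s else 0)) : ℂ)
    rw [if_pos hs, if_pos hs, Rat.smul_def]
    push_cast
    rfl

include ha in
lemma iff_of {m : ℕ} (hm : m ≠ 0) (K₀ : Type) [Field K₀] [NumberField K₀]
    [Algebra k K₀] (hK₀ : IsTotallyComplex K₀) (h0 : Value a b c Γ (fun K => period A B K) K₀)
    (hv : ∀ v : k →+* ℂ, ComplexEmbedding.IsReal v →
      ∃ (E : Type) (_ : Field E) (_ : NumberField E) (_ : Algebra k E),
        0 < realAbove v E ∧ (∀ v', v' ≠ v → realAbove v' E = 0) ∧
          Value a b c Γ (fun K => period A B K) E) :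
    (∀ (K : Type) [Field K] [NumberField K] [Algebra k K],
      Value a b c Γ (fun K => period A B K) K) ↔
      UnramifiedCase a b c Γ (fun K => period A B K) m := by
  constructor
  · intro h K L _ _ _ _ _ _ _ _ _ _ _ _
    rw [quot_iff a ha c Γ A B, (value_iff a ha c Γ A B K).mp (h K),
      (value_iff a ha c Γ A B L).mp (h L)]
  · intro h K _ _ _
    rw [value_iff a ha c Γ A B]
    refine zero_of_real (defect a ha c Γ A B) hm (noChange_of a ha c Γ A B h) K₀ hK₀
      ((value_iff a ha c Γ A B K₀).mp h0) (fun v hreal => ?_) K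
    obtain ⟨E, e1, e2, e3, h1, h2, h3⟩ := hv v hreal
    exact ⟨E, e1, e2, e3, h1, h2, (value_iff a ha c Γ A B E).mp h3⟩

end proof

lemma realAbove_rat (v : ℚ →+* ℂ) (K : Type) [Field K] [NumberField K] [Algebra ℚ K] :
    realAbove v K = InfinitePlace.nrRealPlaces K := by
  classical
  rw [← InfinitePlace.card_real_embeddings, ← Nat.card_eq_fintype_card]
  exact Nat.card_congr (Equiv.subtypeEquivRight fun χ =>
    ⟨fun h => h.1, fun h => ⟨h, Subsingleton.elim _ _⟩⟩)

lemma periodRat_eq (P Q : ℂˣ) : ∃ (A : ℂˣ) (B : (ℚ →+* ℂ) → ℂˣ), ∀ (K : Type) [Field K]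
    [NumberField K] [Algebra ℚ K], periodRat P Q K = period A B K := by
  obtain ⟨z, hz⟩ := IsAlgClosed.exists_pow_nat_eq ((P * Q : ℂˣ) : ℂ) (n := 2) two_pos
  have hz0 : z ≠ 0 := by
    rintro rfl
    rw [zero_pow two_ne_zero] at hz
    exact (P * Q).ne_zero hz.symm
  let A : ℂˣ := Units.mk0 z hz0
  have hA : A ^ 2 = P * Q := Units.ext (by rw [Units.val_pow_eq_pow_val]; exact hz)
  refine ⟨A, fun _ => P / A, fun K _ _ alg => ?_⟩
  have h0 : alg = DivisionRing.toRatAlgebra := Subsingleton.elim _ _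
  have h1 : InfinitePlace.nrRealPlaces K + 2 * InfinitePlace.nrComplexPlaces K =
      Module.finrank ℚ K := by
    subst h0
    exact InfinitePlace.card_add_two_mul_card_eq_rank K
  rw [periodRat, period, ← h1]
  have h2 : ∏ v : ℚ →+* ℂ, (P / A) ^ realAbove v K =
      (P / A) ^ InfinitePlace.nrRealPlaces K := by
    have h3 : ∀ v : ℚ →+* ℂ, (P / A) ^ realAbove v K =
      (P / A) ^ InfinitePlace.nrRealPlaces K := fun v => by rw [realAbove_rat]
    rw [Finset.prod_congr rfl fun v _ => h3 v, Finset.prod_const, Finset.card_univ]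
    have h4 : Fintype.card (ℚ →+* ℂ) = 1 := by
      rw [Embeddings.card ℚ ℂ, Module.finrank_self]
    rw [h4, pow_one]
  rw [h2]
  symm
  calc A ^ (InfinitePlace.nrRealPlaces K + 2 * InfinitePlace.nrComplexPlaces K) *
        (P / A) ^ InfinitePlace.nrRealPlaces K
      = (A * (P / A)) ^ InfinitePlace.nrRealPlaces K *
        (A ^ 2) ^ InfinitePlace.nrComplexPlaces K := by
        rw [pow_add, pow_mul, mul_pow]
        exact mul_right_comm _ _ _
    _ = P ^ InfinitePlace.nrRealPlaces K * (P * Q) ^ InfinitePlace.nrComplexPlaces K := by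
        rw [mul_div_cancel, hA]
    _ = _ := by rw [mul_pow, pow_add, mul_assoc]

open Pool.Agent.Run7.h508.BR in
/-- **Main theorem.** Let `k` be a number field, and let the complex numbers `a v n` satisfy
`‖a v n‖ ≤ C N(v) ^ (b n)`.

* For all number fields `K ⊇ k` the series `log L(M/K, s)` converges absolutely for `Re s > b + 1`.
* If `Holds l x`, and the function `exp (l s)` itself has a meromorphic continuation `Λ` which is
  analytic at `c`, then `Λ(c) ^ n = γ x ^ n` for some `n > 0` and `γ ∈ Γ`.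
* Let `K₀ ⊇ k` be totally complex, and assume the statement for the quotients in the unramified
  case. For all finite families of fields `K_i ⊇ k` and integers `t_i` such that
  `∑ t_i r_v(K_i) = 0` for all real places `v` of `k`, the value at `c` of the product of the
  `(L(M/K_i, s) / L(M/K₀, s)) ^ t_i` has the form which the periods predict.
* Assume that the statement holds over one totally complex field `K₀ ⊇ k` and for every real place
  `v` of `k` over one field `K_v ⊇ k` which has real places, all of them over `v`. Then it holds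
  over all number fields `K ⊇ k` if and only if it holds for the quotients in the unramified case.
* Let `k = ℚ`, and let the period be `P ^ (r₁ + r₂) Q ^ r₂`. If the statement holds over `ℚ` and
  over one totally complex field (for example an imaginary quadratic one), then it holds over all
  number fields if and only if it holds for the quotients in the unramified case. -/
theorem result :
    (∀ (k : Type) [Field k] [NumberField k] (a : HeightOneSpectrum (𝓞 k) → ℕ → ℂ) (b C : ℝ),
      (∀ (v : HeightOneSpectrum (𝓞 k)) (n : ℕ), 0 < n →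
        ‖a v n‖ ≤ C * (Ideal.absNorm v.asIdeal : ℝ) ^ (b * n)) →
      ∀ (K : Type) [Field K] [NumberField K] [Algebra k K] (s : ℂ), b + 1 < s.re →
        Summable (term a K s)) ∧
    (∀ (b : ℝ) (c : ℂ) (Γ : Subgroup ℂˣ) (l : ℂ → ℂ) (x : ℂˣ), Holds b c Γ l x → ∀ Λ : ℂ → ℂ,
      MeromorphicOn Λ Set.univ → AnalyticAt ℂ Λ c →
      (∀ s : ℂ, b + 1 < s.re → Λ s = Complex.exp (l s)) →
      ∃ n : ℕ, 0 < n ∧ ∃ γ ∈ Γ, Λ c ^ n = ((γ * x ^ n : ℂˣ) : ℂ)) ∧
    (∀ (k : Type) [Field k] [NumberField k] (a : HeightOneSpectrum (𝓞 k) → ℕ → ℂ) (b C : ℝ),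
      (∀ (v : HeightOneSpectrum (𝓞 k)) (n : ℕ), 0 < n →
        ‖a v n‖ ≤ C * (Ideal.absNorm v.asIdeal : ℝ) ^ (b * n)) →
      ∀ (c : ℂ) (Γ : Subgroup ℂˣ) (A : ℂˣ) (B : (k →+* ℂ) → ℂˣ) (m : ℕ), m ≠ 0 →
      ∀ (K₀ : Type) [Field K₀] [NumberField K₀] [Algebra k K₀], IsTotallyComplex K₀ →
      (UnramifiedCase a b c Γ (fun K => period A B K) m → ∀ (ι : Type) [Fintype ι] (K : ι → Type)
        [∀ i, Field (K i)] [∀ i, NumberField (K i)] [∀ i, Algebra k (K i)] (t : ι → ℤ),
        (∀ v : k →+* ℂ, ∑ i, t i * (realAbove v (K i) : ℤ) = 0) →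
        Holds b c Γ (fun s => ∑ i, t i * (logL a (K i) s - logL a K₀ s))
          (∏ i, (period A B (K i) / period A B K₀) ^ t i)) ∧
      (Value a b c Γ (fun K => period A B K) K₀ → (∀ v : k →+* ℂ, ComplexEmbedding.IsReal v →
          ∃ (E : Type) (_ : Field E) (_ : NumberField E) (_ : Algebra k E),
            0 < realAbove v E ∧ (∀ v', v' ≠ v → realAbove v' E = 0) ∧
              Value a b c Γ (fun K => period A B K) E) →
        ((∀ (K : Type) [Field K] [NumberField K] [Algebra k K],
          Value a b c Γ (fun K => period A B K) K) ↔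
            UnramifiedCase a b c Γ (fun K => period A B K) m))) ∧
    ∀ (a : HeightOneSpectrum (𝓞 ℚ) → ℕ → ℂ) (b C : ℝ),
      (∀ (v : HeightOneSpectrum (𝓞 ℚ)) (n : ℕ), 0 < n →
        ‖a v n‖ ≤ C * (Ideal.absNorm v.asIdeal : ℝ) ^ (b * n)) →
      ∀ (c : ℂ) (Γ : Subgroup ℂˣ) (P Q : ℂˣ) (m : ℕ), m ≠ 0 →
      ∀ (K₀ : Type) [Field K₀] [NumberField K₀], IsTotallyComplex K₀ →
      Value a b c Γ (fun K => periodRat P Q K) ℚ → Value a b c Γ (fun K => periodRat P Q K) K₀ →
      ((∀ (K : Type) [Field K] [NumberField K], Value a b c Γ (fun K => periodRat P Q K) K) ↔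
        UnramifiedCase a b c Γ (fun K => periodRat P Q K) m) := by
  refine ⟨?_, ?_, ?_, ?_⟩
  · intro k _ _ a b C ha K _ _ _ s hs
    have h1 := summable_g (K := K) (L := K) (fun _ => 1) (fun x => wt a (Pool.Agent.K4H74.SC.idx k x))
      (bound_idx_g (wt a) (bd a ha)) hs
    refine h1.congr fun x => ?_
    rw [logTerm_one, mul_one_div]
    rfl
  · intro b c Γ l x h Λ hΛ hc h1
    have h2 : x = ∏ j : Unit, (fun _ => x) j ^ (fun _ => (1 : ℤ)) j := by simp
    rw [h2] at h
    obtain ⟨n, hn, m, hm, h3⟩ := (holds_iff (r := fun _ => 1) (by simp) (fun s _ => rfl)).mp h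
    obtain ⟨γ, hγ, h4⟩ := h3.value hΛ hc h1
    refine ⟨n, hn, γ, hγ, ?_⟩
    have h5 : m () = n := by
      have h6 := hm ()
      rw [mul_one] at h6
      exact_mod_cast h6
    rw [h4]
    congr 2
    rw [Fintype.prod_unique]
    change x ^ m () = x ^ n
    rw [h5, zpow_natCast]
  · intro k _ _ a b C ha c Γ A B m hm K₀ _ _ _ hK₀
    exact ⟨fun h ι _ K _ _ _ t ht => relation_of a ha c Γ A B hm h K₀ hK₀ ι K t ht,
      fun h0 hv => iff_of a ha c Γ A B hm K₀ hK₀ h0 hv⟩
  · intro a b C ha c Γ P Q m hm K₀ _ _ hK₀ hQ h0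
    obtain ⟨A, B, hAB⟩ := periodRat_eq P Q
    have hfun : (fun (K : Type) [Field K] [NumberField K] [Algebra ℚ K] => periodRat P Q K) =
        fun (K : Type) [Field K] [NumberField K] [Algebra ℚ K] => period A B K := by
      funext K _ _ _
      exact hAB K
    rw [hfun] at hQ h0 ⊢
    have h1 := iff_of a ha c Γ A B hm K₀ hK₀ h0 (fun v hv => ⟨ℚ, inferInstance, inferInstance,
      inferInstance, ?_, fun v' hv' => absurd (Subsingleton.elim v' v) hv', hQ⟩)
    · refine ⟨fun h => h1.mp fun K _ _ alg => ?_, fun h K _ _ => h1.mpr h K⟩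
      obtain rfl : alg = DivisionRing.toRatAlgebra := Subsingleton.elim _ _
      exact h K
    · have : Nonempty {χ : ℚ →+* ℂ // ComplexEmbedding.IsReal χ ∧
          χ.comp (algebraMap ℚ ℚ) = v} := ⟨⟨v, hv, Subsingleton.elim _ _⟩⟩
      exact Nat.card_pos

end Pool.Agent.Results.MP_b696eb_nt.UnramifiedCriticalValues
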